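import Pool.Agent.H68Z.Tak.Count

set_option autoImplicit false

open Set

namespace Pool.Agent.Results.MP_4a5b11_an.NonDyadicLevel

open Pool.Agent.H68Z.Tak

/-- There is a level `y` in `[0, 2/3]` (namely `1901 / 74898`) whose level set is countably
infinite and which is not the value of the Takagi function at a dyadic rational. -/
theorem result : ∃ y ∈ Icc (0 : ℝ) (2 / 3), (L y).Countable ∧ (L y).Infinite ∧
    ∀ m k : ℕ, k ≤ 2 ^ m → T ((k : ℝ) / 2 ^ m) ≠ y := by
  refine ⟨1901 / 74898, ⟨by norm_num, by norm_num⟩, L_countable, L_infinite, fun m k _ => ?_⟩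
  simpa only [Int.cast_natCast] using not_dyadic m (k : ℤ)

end Pool.Agent.Results.MP_4a5b11_an.NonDyadicLevel
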